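import Mathlib
import Pool.Agent.H34WH.X8

/-!
# Weighted Hardy inequality with weight `(1 + |x|²)^α`: best constants, all extremal functions,
# the second constant and sharp stability

For every dimension `n ≥ 2` and every real `α`.
-/

set_option autoImplicit false

namespace Pool.Agent.Results.MP_5b99fd_an.ExtremalsAndGap

open MeasureTheory
open scoped ContDiff

/-- Euclidean space. -/
abbrev E (n : ℕ) : Type := EuclideanSpace ℝ (Fin n)

/-- The energy `∫ (1 + |x|²)^α |∇u|²`. -/
noncomputable def energy (n : ℕ) (α : ℝ) (u : E n → ℝ) : ℝ :=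
  ∫ x, (1 + ‖x‖ ^ 2) ^ α * ‖fderiv ℝ u x‖ ^ 2

/-- The mass `∫ (1 + |x|²)^(α-1) u²`. -/
noncomputable def mass (n : ℕ) (α : ℝ) (u : E n → ℝ) : ℝ :=
  ∫ x, (1 + ‖x‖ ^ 2) ^ (α - 1) * u x ^ 2

/-- The constraint: `∫ (1 + |x|²)^(α-1) u = 0` when `α < -(n-2)/2` (none otherwise). -/
def Constraint (n : ℕ) (α : ℝ) (u : E n → ℝ) : Prop :=
  α < -((n : ℝ) - 2) / 2 → ∫ x, (1 + ‖x‖ ^ 2) ^ (α - 1) * u x = 0

/-- The class of the problem: nonzero smooth compactly supported functions with the constraint. -/
def Test (n : ℕ) (α : ℝ) (u : E n → ℝ) : Prop :=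
  ContDiff ℝ ∞ u ∧ HasCompactSupport u ∧ u ≠ 0 ∧ Constraint n α u

/-- The energy space: all functions of class `C¹` with finite energy and finite mass. -/
def FiniteEnergy (n : ℕ) (α : ℝ) (u : E n → ℝ) : Prop :=
  ContDiff ℝ 1 u ∧ Integrable (fun x => (1 + ‖x‖ ^ 2) ^ α * ‖fderiv ℝ u x‖ ^ 2) ∧
    Integrable (fun x => (1 + ‖x‖ ^ 2) ^ (α - 1) * u x ^ 2)

/-- The best constant. -/
noncomputable def bestC (n : ℕ) (α : ℝ) : ℝ :=
  if α ≤ -(n : ℝ) then -2 * α
  else if α ≤ -((n : ℝ) + 2) / 2 then -4 * α - 2 * n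
  else if α ≤ ((n : ℝ) + 2) / 2 then ((n : ℝ) + 2 * α - 2) ^ 2 / 4
  else 2 * n * (α - 1)

/-- The extremal functions: multiples of `(1+|x|²)^(1-α)` for `α > (n+2)/2`; for `α ≤ (n+2)/2`
the functions `⟨a, x⟩ + k (n + (n+2α)|x|²)`, where `a = 0` unless `α ≤ -n` and `k = 0` unless
`-n ≤ α < -(n+2)/2`. In particular only `0` when `-(n+2)/2 ≤ α ≤ (n+2)/2` and `-n < α`. -/
def Extremal (n : ℕ) (α : ℝ) (u : E n → ℝ) : Prop :=
  (((n : ℝ) + 2) / 2 < α ∧ ∃ c : ℝ, ∀ x, u x = c * (1 + ‖x‖ ^ 2) ^ (1 - α)) ∨
  (α ≤ ((n : ℝ) + 2) / 2 ∧ ∃ (a : E n) (k : ℝ), (-(n : ℝ) < α → a = 0) ∧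
    (α < -(n : ℝ) ∨ -((n : ℝ) + 2) / 2 ≤ α → k = 0) ∧
    ∀ x, u x = inner ℝ a x + k * (n + (n + 2 * α) * ‖x‖ ^ 2))

/-- The second constant, for `α > (n+2)/2`. -/
noncomputable def secondC (n : ℕ) (α : ℝ) : ℝ :=
  if α ≤ ((n : ℝ) + 6) / 2 then ((n : ℝ) + 2 * α - 2) ^ 2 / 4
  else if α ≤ (n : ℝ) + 2 then 2 * (n + 2) * (α - 2)
  else 2 * (n + 1) * α - 2 * n - 4

/-- For every `n ≥ 2` and every real `α`:

(1) `bestC n α` is the greatest lower bound of `energy / mass` over the class of the problem;

(2) the inequality holds for all `C¹` functions of finite energy and mass with the constraint, and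
equality holds exactly for the functions in `Extremal n α`;

and for `α > (n+2)/2`, when the extremal functions are the multiples of `(1+|x|²)^(1-α)`,

(3) `secondC n α` is the greatest lower bound of `energy / mass` over the smooth compactly
supported nonzero `u` orthogonal to the extremal functions, i.e. with `∫ u = 0`;

(4) sharp stability: with `c = ∫ u / ∫ (1+|x|²)^(1-α)` (so that `c (1+|x|²)^(1-α)` is the
orthogonal projection of `u` on the extremal functions) the deficit is at least
`(secondC - bestC)` times the mass of `u - c (1+|x|²)^(1-α)`, with all cases of equality. -/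
theorem result (n : ℕ) (hn : 2 ≤ n) (α : ℝ) :
    IsGLB {q : ℝ | ∃ u, Test n α u ∧ q = energy n α u / mass n α u} (bestC n α) ∧
    (∀ u, FiniteEnergy n α u → Constraint n α u →
      bestC n α * mass n α u ≤ energy n α u ∧
      (energy n α u = bestC n α * mass n α u ↔ Extremal n α u)) ∧
    (((n : ℝ) + 2) / 2 < α →
      bestC n α < secondC n α ∧
      IsGLB {q : ℝ | ∃ u : E n → ℝ, ContDiff ℝ ∞ u ∧ HasCompactSupport u ∧ u ≠ 0 ∧
        ∫ x, u x = 0 ∧ q = energy n α u / mass n α u} (secondC n α) ∧
      ∀ u, FiniteEnergy n α u → ∀ c : ℝ,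
        c = (∫ x, u x) / (∫ x : E n, (1 + ‖x‖ ^ 2) ^ (1 - α)) →
        (secondC n α - bestC n α) * mass n α (fun x => u x - c * (1 + ‖x‖ ^ 2) ^ (1 - α)) ≤
          energy n α u - bestC n α * mass n α u ∧
        (energy n α u - bestC n α * mass n α u =
          (secondC n α - bestC n α) * mass n α (fun x => u x - c * (1 + ‖x‖ ^ 2) ^ (1 - α)) ↔
        ∃ (b : ℝ) (a : E n) (k : ℝ), (α < (n : ℝ) + 2 → a = 0) ∧
          (α ≤ ((n : ℝ) + 6) / 2 ∨ (n : ℝ) + 2 < α → k = 0) ∧
          ∀ x, u x = (1 + ‖x‖ ^ 2) ^ (1 - α) *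
            (b + inner ℝ a x + k * (n + (n + 4 - 2 * α) * ‖x‖ ^ 2)))) := by
  have hn' : (2 : ℝ) ≤ n := by exact_mod_cast hn
  -- linear functionals are inner products
  have hdual : ∀ L : E n →L[ℝ] ℝ, ∃ a : E n, L = innerSL ℝ a := fun L =>
    ⟨(InnerProductSpace.toDual ℝ (E n)).symm L, by
      ext x
      rw [innerSL_apply_apply, InnerProductSpace.toDual_symm_apply]⟩
  refine ⟨H34WH.top_all n α hn, fun u hu hc => ⟨H34WH.low_FE n α hn u hu hc, ?_⟩, fun hα => ?_⟩
  · -- the cases of equality
    rcases lt_or_ge (((n : ℝ) + 2) / 2) α with hbig | hsmall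
    · constructor
      · intro heq
        obtain ⟨c, hc⟩ := H34WH.eq_free_large n α hbig u hu heq
        exact Or.inl ⟨hbig, c, hc⟩
      · rintro (⟨-, c, hc⟩ | ⟨h, -⟩)
        · have hue : u = fun x => c * H34WH.wt n (1 - α) x := funext hc
          obtain ⟨g1, g2⟩ := H34WH.gs_ext n α (by omega) hbig
          rw [hue]
          change H34WH.en n α (fun x => c * H34WH.wt n (1 - α) x) =
            H34WH.Cst n α * H34WH.ms n α (fun x => c * H34WH.wt n (1 - α) x)
          rw [H34WH.en_smul g1.1, H34WH.ms_smul, g2]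
          ring
        · exact absurd hbig (not_lt.2 h)
    · rcases lt_or_ge α (-((n : ℝ) - 2) / 2) with hneg | hfree
      · have hiff := H34WH.eq_neg n α hn hneg u hu hc
        refine hiff.trans ⟨?_, ?_⟩
        · rintro ⟨L, k, h1, h2, h3⟩
          obtain ⟨a, rfl⟩ := hdual L
          refine Or.inr ⟨hsmall, a, k, fun h => ?_, fun h => ?_, fun x => ?_⟩
          · have h4 := h1 (not_le.2 h)
            have h5 := congrArg (fun L : E n →L[ℝ] ℝ => L a) h4
            simp only [innerSL_apply_apply, real_inner_self_eq_norm_sq, _root_.zero_apply] at h5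
            exact norm_eq_zero.1 (pow_eq_zero_iff (two_ne_zero) |>.1 h5)
          · apply h2
            rintro ⟨k1, k2⟩
            rcases h with h | h <;> linarith
          · rw [h3 x, innerSL_apply_apply]
            rfl
        · rintro (⟨h, -⟩ | ⟨-, a, k, h1, h2, h3⟩)
          · exact absurd hsmall (not_le.2 h)
          · refine ⟨innerSL ℝ a, k, fun h => ?_, fun h => ?_, fun x => ?_⟩
            · rw [h1 (not_le.1 h), map_zero]
            · apply h2
              by_contra hcon
              push Not at hcon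
              exact h ⟨hcon.1, hcon.2⟩
            · rw [h3 x, innerSL_apply_apply]
              rfl
      · constructor
        · intro heq
          have h0 := H34WH.eq_free_mid n α hn hfree hsmall u hu heq
          refine Or.inr ⟨hsmall, 0, 0, fun _ => rfl, fun _ => rfl, fun x => ?_⟩
          rw [h0]
          simp
        · rintro (⟨h, -⟩ | ⟨-, a, k, h1, h2, h3⟩)
          · exact absurd hsmall (not_le.2 h)
          · have ha := h1 (by linarith)
            have hk := h2 (Or.inr (by linarith))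
            have hue : u = fun _ => (0 : ℝ) := by
              funext x
              rw [h3 x, ha, hk]
              simp
            rw [hue]
            unfold energy mass
            simp
  · have hC : bestC n α = 2 * n * (α - 1) := by
      unfold bestC
      rw [if_neg (by linarith), if_neg (by linarith), if_neg (by linarith)]
    have h2 : 2 * n * (α - 1) + H34WH.Cst n (2 - α) = secondC n α := H34WH.Cst2_eq n α hn hα
    have hgap : secondC n α - bestC n α = H34WH.Cst n (2 - α) := by
      rw [hC, ← h2]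
      ring
    refine ⟨?_, ?_, fun u hu c hc => ?_⟩
    · have h3 : 0 < H34WH.Cst n (2 - α) :=
        (H34WH.pf_1d_exists_theta hn (show 2 - α < -((n : ℝ) - 2) / 2 by linarith)).1
      linarith
    · have h3 := H34WH.second n α hn hα
      rw [h2] at h3
      exact h3
    · obtain ⟨s1, s2⟩ := H34WH.stab n α hn hα u hu c hc
      rw [hgap, hC]
      refine ⟨s1, ?_⟩
      refine s2.trans ⟨?_, ?_⟩
      · rintro ⟨b, L, k, h1, h2, h3⟩
        obtain ⟨a, rfl⟩ := hdual L
        refine ⟨b, a, k, fun h => ?_, fun h => ?_, fun x => ?_⟩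
        · have h4 := h1 (not_le.2 (by linarith))
          have h5 := congrArg (fun L : E n →L[ℝ] ℝ => L a) h4
          simp only [innerSL_apply_apply, real_inner_self_eq_norm_sq, _root_.zero_apply] at h5
          exact norm_eq_zero.1 (pow_eq_zero_iff (two_ne_zero) |>.1 h5)
        · apply h2
          rintro ⟨k1, k2⟩
          rcases h with h | h <;> linarith
        · rw [h3 x, innerSL_apply_apply]
          unfold H34WH.wt H34WH.quad
          ring
      · rintro ⟨b, a, k, h1, h2, h3⟩
        refine ⟨b, innerSL ℝ a, k, fun h => ?_, fun h => ?_, fun x => ?_⟩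
        · rw [h1 (by linarith [not_le.1 h]), map_zero]
        · apply h2
          by_contra hcon
          push Not at hcon
          exact h ⟨by linarith [hcon.2], by linarith [hcon.1]⟩
        · rw [h3 x, innerSL_apply_apply]
          unfold H34WH.wt H34WH.quad
          ring

end Pool.Agent.Results.MP_5b99fd_an.ExtremalsAndGap
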